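import Pool.Agent.H99.LU.RDefs

/-!
Project LU, part C, module RE1: exactness of the complex of finitely supported functions on the
right-angled Coxeter group.
-/

set_option autoImplicit false
set_option linter.unusedSectionVars false

open scoped BigOperators Topology
open Filter Pool.H3.L2

noncomputable section

namespace Pool.LU

section re1

variable {V : Type} [Fintype V] [DecidableEq V] {adj : V → V → Prop} {W : Type} [Group W]

theorem re1_inv (R : RA V adj W) (v : V) : (R.s v)⁻¹ = R.s v :=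
  inv_eq_of_mul_eq_one_left (R.s_sq v)

theorem re1_units (a : ℤˣ) (h : a ≠ 1) : a = -1 := (Int.units_eq_one_or a).resolve_left h

theorem re1_chi_ne (R : RA V adj W) (u v : V) (h : u ≠ v) (g : W) :
    R.χ (g * R.s v) u = R.χ g u := by
  rw [map_mul, R.χ_s, Pi.mul_apply, Pi.mulSingle_eq_of_ne h, mul_one]

theorem re1_chi_self (R : RA V adj W) (v : V) (g : W) :
    R.χ (g * R.s v) v = - R.χ g v := by
  rw [map_mul, R.χ_s, Pi.mul_apply, Pi.mulSingle_eq_same, mul_neg, mul_one]

/-- lengths of the elements `w g` if all elements of `τ` are descents of `w` -/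
theorem re1_len (R : RA V adj W) (w : W) (τ : Finset V)
    (hτ : ∀ v ∈ τ, R.len (w * R.s v) < R.len w) (g : W)
    (hg : g ∈ Subgroup.closure (R.s '' (τ : Set V))) :
    (∀ u ∈ τ, (R.len (w * g * R.s u) < R.len (w * g) ↔ R.χ g u = 1)) ∧
    R.len (w * g) + (τ.filter (fun u => R.χ g u = -1)).card = R.len w := by
  have hcl : ∀ u ∈ τ, ∀ v ∈ τ, u ≠ v → adj u v := fun u hu v hv h =>
    R.desc w u v (hτ u hu) (hτ v hv) h
  have key : ∀ (x : W), (∀ u ∈ τ, (R.len (w * x * R.s u) < R.len (w * x) ↔ R.χ x u = 1)) ∧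
      R.len (w * x) + (τ.filter (fun u => R.χ x u = -1)).card = R.len w → ∀ v ∈ τ,
      (∀ u ∈ τ, (R.len (w * (x * R.s v) * R.s u) < R.len (w * (x * R.s v)) ↔
        R.χ (x * R.s v) u = 1)) ∧
      R.len (w * (x * R.s v)) + (τ.filter (fun u => R.χ (x * R.s v) u = -1)).card =
        R.len w := by
    rintro x ⟨h1, h2⟩ v hv
    have e1 : w * (x * R.s v) = w * x * R.s v := by group
    have e2 : w * x * R.s v * R.s v = w * x := by rw [mul_assoc, R.s_sq, mul_one]
    have h3 := R.len_s (w * x) v
    have h1v := h1 v hv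
    rw [e1]
    refine ⟨fun u hu => ?_, ?_⟩
    · by_cases huv : u = v
      · subst huv
        rw [e2, re1_chi_self]
        rcases Int.units_eq_one_or (R.χ x u) with h4 | h4
        · have := h1v.2 h4
          rw [h4]
          constructor
          · intro h5; omega
          · intro h5; exact absurd h5 (by decide)
        · have h5 : ¬ (R.len (w * x * R.s u) < R.len (w * x)) := by
            intro h6
            rw [h1v.1 h6] at h4
            exact absurd h4 (by decide)
          rw [h4]
          constructor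
          · intro _; simp
          · intro _; omega
      · rw [R.desc_s (w * x) u v (hcl u hu v hv huv), re1_chi_ne R u v huv]
        exact h1 u hu
    · rcases Int.units_eq_one_or (R.χ x v) with h4 | h4
      · have h5 := h1v.2 h4
        have h6 : τ.filter (fun u => R.χ (x * R.s v) u = -1) =
            insert v (τ.filter (fun u => R.χ x u = -1)) := by
          ext u
          simp only [Finset.mem_filter, Finset.mem_insert]
          by_cases huv : u = v
          · subst huv
            simp [re1_chi_self, h4, hv]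
          · simp [re1_chi_ne R u v huv, huv]
        have h7 : v ∉ τ.filter (fun u => R.χ x u = -1) := by
          simp only [Finset.mem_filter, not_and, h4]
          intro _; decide
        rw [h6, Finset.card_insert_of_notMem h7]
        omega
      · have h5 : ¬ (R.len (w * x * R.s v) < R.len (w * x)) := by
          intro h6
          rw [h1v.1 h6] at h4
          exact absurd h4 (by decide)
        have h6 : τ.filter (fun u => R.χ x u = -1) =
            insert v (τ.filter (fun u => R.χ (x * R.s v) u = -1)) := by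
          ext u
          simp only [Finset.mem_filter, Finset.mem_insert]
          by_cases huv : u = v
          · subst huv
            simp [h4, hv]
          · simp [re1_chi_ne R u v huv, huv]
        have h7 : v ∉ τ.filter (fun u => R.χ (x * R.s v) u = -1) := by
          simp only [Finset.mem_filter, not_and, re1_chi_self, h4, neg_neg]
          intro _; decide
        rw [h6, Finset.card_insert_of_notMem h7] at h2
        omega
  induction hg using Subgroup.closure_induction_right with
  | one =>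
    refine ⟨fun u hu => ?_, ?_⟩
    · simp [hτ u hu]
    · have : τ.filter (fun u => R.χ (1 : W) u = -1) = ∅ := by
        refine Finset.filter_eq_empty_iff.2 fun u _ => ?_
        rw [map_one, Pi.one_apply]
        decide
      rw [this, mul_one, Finset.card_empty, add_zero]
  | mul_right x _ y hy ih =>
    obtain ⟨v, hv, rfl⟩ := hy
    exact key x ih v hv
  | mul_inv_cancel x _ y hy ih =>
    obtain ⟨v, hv, rfl⟩ := hy
    rw [re1_inv]
    exact key x ih v hv

theorem re1_lt (R : RA V adj W) (RF : RaFacts R) (w : W) (τ : Finset V)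
    (hτ : ∀ v ∈ τ, R.len (w * R.s v) < R.len w) (g : W)
    (hg : g ∈ Subgroup.closure (R.s '' (τ : Set V))) (h1 : g ≠ 1) :
    R.len (w * g) < R.len w := by
  have hcl : ∀ u ∈ (τ : Set V), ∀ v ∈ (τ : Set V), u ≠ v → adj u v := fun u hu v hv h =>
    R.desc w u v (hτ u hu) (hτ v hv) h
  have h2 := (re1_len R w τ hτ g hg).2
  have h3 : ∃ u ∈ τ, R.χ g u = -1 := by
    by_contra hcon
    push Not at hcon
    refine h1 (RF.inj _ hcl g hg ?_)
    funext u
    by_cases hu : u ∈ τ
    · by_contra h4
      exact hcon u hu (re1_units _ h4)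
    · exact RF.supp _ u (by simpa using hu) g hg
  obtain ⟨u, hu, hu'⟩ := h3
  have h4 : 0 < (τ.filter (fun u => R.χ g u = -1)).card :=
    Finset.card_pos.2 ⟨u, Finset.mem_filter.2 ⟨hu, hu'⟩⟩
  omega

/-- the boundary of an antisymmetric family is antisymmetric -/
theorem re1_allCh_bd {F : Type} [CommRing F] {X : Type} (o : V → ℕ) (ρ : V → X → X)
    (y : Finset V → X → F) (h : AllCh adj ρ y) : AllCh adj ρ (bd F o X y) := by
  refine ⟨fun σ hσ => ?_, fun σ v hv z => ?_⟩
  · have h1 : ∃ v, y (insert v σ) ≠ 0 := by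
      by_contra hcon
      push Not at hcon
      apply hσ
      funext z
      rw [bd_apply]
      refine Finset.sum_eq_zero fun v _ => ?_
      rw [hcon v]
      simp
    obtain ⟨v, hv⟩ := h1
    exact fun a ha b hb hab => h.1 _ hv a (Finset.mem_insert_of_mem ha) b
      (Finset.mem_insert_of_mem hb) hab
  · rw [bd_apply, bd_apply, ← Finset.sum_neg_distrib]
    refine Finset.sum_congr rfl fun u _ => ?_
    rw [h.2 (insert u σ) v (Finset.mem_insert_of_mem hv)]
    ring

theorem re1_allCh_sub {F : Type} [CommRing F] {X : Type} (ρ : V → X → X)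
    (x y : Finset V → X → F) (hx : AllCh adj ρ x) (h : AllCh adj ρ y) :
    AllCh adj ρ (x - y) := by
  refine ⟨fun σ hσ => ?_, fun σ v hv z => ?_⟩
  · by_cases h1 : x σ = 0
    · refine h.1 σ fun h2 => hσ ?_
      rw [Pi.sub_apply, h1, h2, sub_zero]
    · exact hx.1 σ h1
  · simp only [Pi.sub_apply, hx.2 σ v hv z, h.2 σ v hv z]
    ring

theorem re1_allCh_add {F : Type} [CommRing F] {X : Type} (ρ : V → X → X)
    (x y : Finset V → X → F) (hx : AllCh adj ρ x) (h : AllCh adj ρ y) :
    AllCh adj ρ (x + y) := by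
  refine ⟨fun σ hσ => ?_, fun σ v hv z => ?_⟩
  · by_cases h1 : x σ = 0
    · refine h.1 σ fun h2 => hσ ?_
      rw [Pi.add_apply, h1, h2, add_zero]
    · exact hx.1 σ h1
  · simp only [Pi.add_apply, hx.2 σ v hv z, h.2 σ v hv z]
    ring

theorem re1_fin_bd {X : Type} (o : V → ℕ) (y : Finset V → X → ℤ)
    (h : ∀ σ, (Function.support (y σ)).Finite) (σ : Finset V) :
    (Function.support (bd ℤ o X y σ)).Finite := by
  refine (Set.finite_iUnion fun v : V => h (insert v σ)).subset fun z hz => ?_
  rw [Function.mem_support, bd_apply] at hz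
  obtain ⟨v, _, hv⟩ := Finset.exists_ne_zero_of_sum_ne_zero hz
  exact Set.mem_iUnion.2 ⟨v, fun h0 => hv (by rw [h0, mul_zero])⟩

/-- the augmentation of a boundary is zero -/
theorem re1_aug (R : RA V adj W) (o : V → ℕ) (y : Finset V → W → ℤ)
    (hy : AllCh adj (fun v w => w * R.s v) y) (h : ∀ σ, (Function.support (y σ)).Finite) :
    ∑ᶠ w, bd ℤ o W y ∅ w = 0 := by
  have h1 : ∀ v, ∑ᶠ w, y {v} w = 0 := by
    intro v
    have h2 : ∑ᶠ w, y {v} w = ∑ᶠ w, y {v} (w * R.s v) :=
      (finsum_comp_equiv (Equiv.mulRight (R.s v)) (f := fun w => y {v} w)).symm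
    have h3 : ∀ w, y {v} (w * R.s v) = - y {v} w := fun w =>
      hy.2 {v} v (Finset.mem_singleton_self v) w
    simp only [h3] at h2
    rw [finsum_neg_distrib] at h2
    omega
  have h2 : ∀ w, bd ℤ o W y ∅ w = ∑ v ∈ Finset.univ \ (∅ : Finset V),
      (sg o v ∅ : ℤ) * y {v} w := by
    intro w
    rw [bd_apply]
    rfl
  simp only [h2]
  rw [finsum_sum_comm]
  · refine Finset.sum_eq_zero fun v _ => ?_
    rw [← mul_finsum, h1, mul_zero]
  · intro v _
    exact (h {v}).subset fun w hw h0 => hw (by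
      show (sg o v ∅ : ℤ) * y {v} w = 0
      rw [h0, mul_zero])

theorem re1_sg (o : V → ℕ) (v : V) (τ : Finset V) : (sg o v τ : ℤ) * sg o v τ = 1 := by
  unfold sg
  rw [← mul_pow]
  simp

/-- One step: the values at an element `w` of maximal length are removed. -/
theorem re1_step (hC : CHBStmt) (R : RA V adj W) (RF : RaFacts R) (o : V → ℕ)
    (ho : Function.Injective o) (x : Finset V → W → ℤ)
    (hx : AllCh adj (fun v w => w * R.s v) x) (hb : bd ℤ o W x = 0) (w : W) (hw : w ≠ 1)
    (hL : ∀ σ z, x σ z ≠ 0 → R.len z ≤ R.len w) :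
    ∃ y : Finset V → W → ℤ, AllCh adj (fun v w => w * R.s v) y ∧
      (∀ σ, (Function.support (y σ)).Finite) ∧ (∀ σ, (x - bd ℤ o W y) σ w = 0) ∧
      ∀ σ z, z ≠ w → R.len w ≤ R.len z → bd ℤ o W y σ z = 0 := by
  classical
  obtain ⟨v, hv⟩ := R.ne w hw
  let y : Finset V → W → ℤ := fun τ z =>
    if v ∈ τ ∧ (∀ u ∈ τ, R.len (w * R.s u) < R.len w) ∧
      w⁻¹ * z ∈ Subgroup.closure (R.s '' (τ : Set V)) then
      sg o v (τ.erase v) * x (τ.erase v) w * ∏ u ∈ τ, ((R.χ (w⁻¹ * z) u : ℤˣ) : ℤ) else 0
  have hy : ∀ τ z, y τ z = if v ∈ τ ∧ (∀ u ∈ τ, R.len (w * R.s u) < R.len w) ∧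
      w⁻¹ * z ∈ Subgroup.closure (R.s '' (τ : Set V)) then
      sg o v (τ.erase v) * x (τ.erase v) w * ∏ u ∈ τ, ((R.χ (w⁻¹ * z) u : ℤˣ) : ℤ) else 0 :=
    fun _ _ => rfl
  have hy0 : ∀ τ z, y τ z ≠ 0 → v ∈ τ ∧ (∀ u ∈ τ, R.len (w * R.s u) < R.len w) ∧
      w⁻¹ * z ∈ Subgroup.closure (R.s '' (τ : Set V)) := by
    intro τ z h
    by_contra hcon
    exact h (by rw [hy, if_neg hcon])
  have hcl : ∀ τ : Finset V, (∀ u ∈ τ, R.len (w * R.s u) < R.len w) → Clq adj τ :=
    fun τ h a ha b hb hab => R.desc w a b (h a ha) (h b hb) hab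
  have hyA : AllCh adj (fun v w => w * R.s v) y := by
    refine ⟨fun σ hσ => ?_, fun σ u hu z => ?_⟩
    · obtain ⟨z, hz⟩ := Function.ne_iff.1 hσ
      exact hcl σ (hy0 σ z hz).2.1
    · rw [hy, hy]
      have e1 : w⁻¹ * (z * R.s u) = w⁻¹ * z * R.s u := by group
      have hmem : R.s u ∈ Subgroup.closure (R.s '' (σ : Set V)) :=
        Subgroup.subset_closure ⟨u, hu, rfl⟩
      have e2 : w⁻¹ * (z * R.s u) ∈ Subgroup.closure (R.s '' (σ : Set V)) ↔
          w⁻¹ * z ∈ Subgroup.closure (R.s '' (σ : Set V)) := by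
        rw [e1]
        exact Subgroup.mul_mem_cancel_right _ hmem
      have e3 : ∏ a ∈ σ, ((R.χ (w⁻¹ * (z * R.s u)) a : ℤˣ) : ℤ) =
          - ∏ a ∈ σ, ((R.χ (w⁻¹ * z) a : ℤˣ) : ℤ) := by
        rw [e1, ← Finset.mul_prod_erase _ _ hu, ← Finset.mul_prod_erase _ _ hu,
          re1_chi_self, Units.val_neg, neg_mul]
        congr 2
        refine Finset.prod_congr rfl fun a ha => ?_
        rw [re1_chi_ne R a u (Finset.ne_of_mem_erase ha)]
      by_cases h : v ∈ σ ∧ (∀ u ∈ σ, R.len (w * R.s u) < R.len w) ∧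
          w⁻¹ * z ∈ Subgroup.closure (R.s '' (σ : Set V))
      · rw [if_pos h, if_pos ⟨h.1, h.2.1, e2.2 h.2.2⟩, e3]
        ring
      · rw [if_neg h, if_neg (fun h' => h ⟨h'.1, h'.2.1, e2.1 h'.2.2⟩), neg_zero]
  have hyF : ∀ σ, (Function.support (y σ)).Finite := by
    intro σ
    by_cases h : ∀ u ∈ σ, R.len (w * R.s u) < R.len w
    · have h1 := RF.fin (σ : Set V) (fun a ha b hb hab => hcl σ h a ha b hb hab)
      refine (h1.preimage (mul_right_injective w⁻¹).injOn).subset fun z hz => ?_
      exact (hy0 σ z hz).2.2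
    · refine Set.finite_empty.subset fun z hz => ?_
      exact absurd (hy0 σ z hz).2.1 h
  have hyw : ∀ τ, v ∈ τ → (∀ u ∈ τ, R.len (w * R.s u) < R.len w) →
      y τ w = sg o v (τ.erase v) * x (τ.erase v) w := by
    intro τ h1 h2
    rw [hy, if_pos ⟨h1, h2, by rw [inv_mul_cancel]; exact one_mem _⟩, inv_mul_cancel, map_one]
    simp
  have hyz : ∀ τ z, z ≠ w → R.len w ≤ R.len z → y τ z = 0 := by
    intro τ z h1 h2
    by_contra h3
    obtain ⟨h4, h5, h6⟩ := hy0 τ z h3
    have h7 := re1_lt R RF w τ h5 (w⁻¹ * z) h6 (fun h => h1 (by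
      rw [inv_mul_eq_one] at h
      exact h.symm))
    rw [mul_inv_cancel_left] at h7
    omega
  -- the supports of `x` at `w`
  have hxw : ∀ σ, x σ w ≠ 0 → ∀ u ∈ σ, R.len (w * R.s u) < R.len w := by
    intro σ h u hu
    have h1 : x σ (w * R.s u) = - x σ w := hx.2 σ u hu w
    have h2 : x σ (w * R.s u) ≠ 0 := by rw [h1]; exact neg_ne_zero.2 h
    have h3 := hL σ _ h2
    have h4 := R.len_s w u
    omega
  -- the boundary at `w`
  have h1 : ∀ σ, v ∉ σ → bd ℤ o W y σ w = x σ w := by
    intro σ hσ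
    rw [bd_apply, Finset.sum_eq_single v]
    · by_cases h2 : ∀ u ∈ σ, R.len (w * R.s u) < R.len w
      · rw [hyw (insert v σ) (Finset.mem_insert_self _ _) (by
          intro u hu
          rcases Finset.mem_insert.1 hu with rfl | hu
          · exact hv
          · exact h2 u hu), Finset.erase_insert hσ, ← mul_assoc]
        rw [Int.cast_id, re1_sg, one_mul]
      · have h3 : x σ w = 0 := by
          by_contra h4
          exact h2 (hxw σ h4)
        have h4 : y (insert v σ) w = 0 := by
          by_contra h4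
          exact h2 fun u hu => (hy0 _ _ h4).2.1 u (Finset.mem_insert_of_mem hu)
        rw [h3, h4, mul_zero]
    · intro u _ hu
      have h4 : y (insert u σ) w = 0 := by
        by_contra h4
        rcases Finset.mem_insert.1 (hy0 _ _ h4).1 with h5 | h5
        · exact hu h5.symm
        · exact hσ h5
      rw [h4, mul_zero]
    · intro h
      exact absurd (Finset.mem_sdiff.2 ⟨Finset.mem_univ v, hσ⟩) h
  have h2 : bd ℤ o W (x - bd ℤ o W y) = 0 := by
    rw [map_sub, hb, (hC ℤ V adj o ho W (fun v w => w * R.s v)).1 y, sub_zero]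
  have h3 : ∀ σ, v ∉ σ → (x - bd ℤ o W y) σ w = 0 := by
    intro σ hσ
    rw [Pi.sub_apply, Pi.sub_apply, h1 σ hσ, sub_self]
  refine ⟨y, hyA, hyF, fun σ => ?_, fun σ z hz hz' => ?_⟩
  · by_cases hσ : v ∈ σ
    · have h4 : bd ℤ o W (x - bd ℤ o W y) (σ.erase v) w = 0 := by
        rw [h2]; rfl
      rw [bd_apply, Finset.sum_eq_single v] at h4
      · rw [Finset.insert_erase hσ] at h4
        have h5 : (sg o v (σ.erase v) : ℤ) ≠ 0 := by
          intro h6
          have := re1_sg o v (σ.erase v)
          rw [h6] at this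
          simp at this
        rw [Int.cast_id] at h4
        exact (mul_eq_zero.1 h4).resolve_left h5
      · intro u _ hu
        rw [h3 (insert u (σ.erase v)) (fun h5 => ?_), mul_zero]
        rcases Finset.mem_insert.1 h5 with h6 | h6
        · exact hu h6.symm
        · exact Finset.notMem_erase v σ h6
      · intro h
        exact absurd (Finset.mem_sdiff.2 ⟨Finset.mem_univ v, Finset.notMem_erase v σ⟩) h
    · exact h3 σ hσ
  · rw [bd_apply]
    exact Finset.sum_eq_zero fun u _ => by rw [hyz _ z hz hz', mul_zero]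

theorem re1_base (R : RA V adj W) (x : Finset V → W → ℤ)
    (hx : AllCh adj (fun v w => w * R.s v) x) (h0 : ∑ᶠ w, x ∅ w = 0)
    (hL : ∀ σ z, x σ z ≠ 0 → z = 1) : x = 0 := by
  funext σ z
  by_contra hne
  have hz := hL σ z hne
  subst hz
  by_cases hσ : σ = ∅
  · subst hσ
    rw [finsum_eq_single _ 1 (fun z hz => by
      by_contra h
      exact hz (hL ∅ z h))] at h0
    exact hne h0
  · obtain ⟨v, hv⟩ := Finset.nonempty_iff_ne_empty.2 hσ
    have h1 : x σ (1 * R.s v) = - x σ 1 := hx.2 σ v hv 1
    have h2 : x σ (1 * R.s v) ≠ 0 := by rw [h1]; exact neg_ne_zero.2 hne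
    have h3 := hL σ _ h2
    have h4 := R.χ_s v
    rw [one_mul] at h3
    rw [h3, map_one] at h4
    have h5 := congrFun h4 v
    rw [Pi.mulSingle_eq_same, Pi.one_apply] at h5
    exact absurd h5 (by decide)

/-- the elements of the support of `x` of length `L` -/
def re1S (R : RA V adj W) (x : Finset V → W → ℤ) (L : ℕ) : Set W :=
  {w | R.len w = L ∧ ∃ σ, x σ w ≠ 0}

theorem re1_main (hC : CHBStmt) (R : RA V adj W) (RF : RaFacts R) (o : V → ℕ)
    (ho : Function.Injective o) (L n : ℕ) : ∀ x : Finset V → W → ℤ,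
    AllCh adj (fun v w => w * R.s v) x → (∀ σ, (Function.support (x σ)).Finite) →
    bd ℤ o W x = 0 → ∑ᶠ w, x ∅ w = 0 → (∀ σ z, x σ z ≠ 0 → R.len z ≤ L) →
    (re1S R x L).ncard ≤ n →
    ∃ y : Finset V → W → ℤ, AllCh adj (fun v w => w * R.s v) y ∧
      (∀ σ, (Function.support (y σ)).Finite) ∧ bd ℤ o W y = x := by
  induction L generalizing n with
  | zero =>
    intro x hx hf hb h0 hL _
    have h1 := re1_base R x hx h0 (fun σ z hz => by
      have := hL σ z hz
      exact (R.len_one z).1 (by omega))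
    subst h1
    exact ⟨0, hx, hf, map_zero _⟩
  | succ L ihL =>
    induction n with
    | zero =>
      intro x hx hf hb h0 hL hn
      have hfin : (re1S R x (L + 1)).Finite := by
        refine (Set.finite_iUnion hf).subset ?_
        rintro w ⟨_, σ, hσ⟩
        exact Set.mem_iUnion.2 ⟨σ, hσ⟩
      have h1 : re1S R x (L + 1) = ∅ := (Set.ncard_eq_zero hfin).1 (by omega)
      refine ihL (re1S R x L).ncard x hx hf hb h0 (fun σ z hz => ?_) le_rfl
      have h2 := hL σ z hz
      by_contra h3
      have h4 : z ∈ re1S R x (L + 1) := ⟨by omega, σ, hz⟩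
      rw [h1] at h4
      exact h4
    | succ n ihn =>
      intro x hx hf hb h0 hL hn
      have hfin : (re1S R x (L + 1)).Finite := by
        refine (Set.finite_iUnion hf).subset ?_
        rintro w ⟨_, σ, hσ⟩
        exact Set.mem_iUnion.2 ⟨σ, hσ⟩
      by_cases hne : (re1S R x (L + 1)).Nonempty
      · obtain ⟨w, hw1, σ0, hσ0⟩ := hne
        have hw : w ≠ 1 := by
          rintro rfl
          rw [(R.len_one 1).2 rfl] at hw1
          omega
        obtain ⟨y, hyA, hyF, hyw, hyz⟩ := re1_step hC R RF o ho x hx hb w hw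
          (fun σ z hz => by rw [hw1]; exact hL σ z hz)
        have hbF := re1_fin_bd o y hyF
        have hA : AllCh adj (fun v w => w * R.s v) (x - bd ℤ o W y) :=
          re1_allCh_sub _ _ _ hx (re1_allCh_bd o _ y hyA)
        have hF : ∀ σ, (Function.support ((x - bd ℤ o W y) σ)).Finite := by
          intro σ
          refine ((hf σ).union (hbF σ)).subset ?_
          intro z hz
          by_contra h
          rw [Set.mem_union, not_or, Function.notMem_support, Function.notMem_support] at h
          exact hz (by rw [Pi.sub_apply, Pi.sub_apply, h.1, h.2, sub_zero])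
        have hB : bd ℤ o W (x - bd ℤ o W y) = 0 := by
          rw [map_sub, hb, (hC ℤ V adj o ho W (fun v w => w * R.s v)).1 y, sub_zero]
        have h00 : ∑ᶠ w, (x - bd ℤ o W y) ∅ w = 0 := by
          simp only [Pi.sub_apply]
          rw [finsum_sub_distrib (hf ∅) (hbF ∅), h0, re1_aug R o y hyA hyF, sub_zero]
        have hz0 : ∀ σ z, (x - bd ℤ o W y) σ z ≠ 0 → L + 1 ≤ R.len z → x σ z ≠ 0 ∧ z ≠ w := by
          intro σ z h1 h2
          have h3 : z ≠ w := by
            rintro rfl
            exact h1 (hyw σ)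
          refine ⟨fun h4 => h1 ?_, h3⟩
          rw [Pi.sub_apply, Pi.sub_apply, h4, hyz σ z h3 (by omega), sub_zero]
        obtain ⟨y', h1, h2, h3⟩ := ihn (x - bd ℤ o W y) hA hF hB h00 (by
          intro σ z h1
          by_contra h2
          exact absurd (hL σ z (hz0 σ z h1 (by omega)).1) h2) (by
          have h4 : re1S R (x - bd ℤ o W y) (L + 1) ⊆ re1S R x (L + 1) \ {w} := by
            rintro z ⟨h5, σ, h6⟩
            have h7 := hz0 σ z h6 (by omega)
            exact ⟨⟨h5, σ, h7.1⟩, h7.2⟩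
          have h5 := Set.ncard_le_ncard h4 (hfin.subset Set.sdiff_subset)
          have h6 : (re1S R x (L + 1) \ {w}).ncard < (re1S R x (L + 1)).ncard :=
            Set.ncard_sdiff_singleton_lt_of_mem ⟨hw1, σ0, hσ0⟩ hfin
          omega)
        refine ⟨y' + y, re1_allCh_add _ _ _ h1 hyA, fun σ => ?_, ?_⟩
        · refine ((h2 σ).union (hyF σ)).subset ?_
          intro z hz
          by_contra h
          rw [Set.mem_union, not_or, Function.notMem_support, Function.notMem_support] at h
          exact hz (by rw [Pi.add_apply, Pi.add_apply, h.1, h.2, add_zero])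
        · rw [map_add, h3, sub_add_cancel]
      · refine ihn x hx hf hb h0 hL ?_
        rw [Set.not_nonempty_iff_eq_empty.1 hne, Set.ncard_empty]
        omega

end re1

/-- RE1 -/
theorem re1 (hC : CHBStmt) (hR : RAFStmt) : RE1Stmt := by
  intro V _ _ adj _ _ W _ R o ho x hx hf hb h0
  have hfin : (⋃ σ, Function.support (x σ)).Finite := Set.finite_iUnion hf
  obtain ⟨L, hL⟩ := (hfin.image R.len).bddAbove
  exact re1_main hC R (hR V adj W R) o ho L _ x hx hf hb h0
    (fun σ z hz => hL ⟨z, Set.mem_iUnion.2 ⟨σ, hz⟩, rfl⟩) le_rfl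

end Pool.LU
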